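import Pool.Agent.Run7.h285.R.Stm
import Pool.Agent.Run7.h212.G.Pol

/-!
# Project RP: means of `hh` over `n` (R3)
-/

set_option autoImplicit false

namespace Run7.h285.R3

open Finset Filter Topology Polynomial
open Run7.h285.R (hh S_R3)
open Run7.h285.G (Gd)
open Pool.Agent.H646 (rat)

lemma crt_two (m n : ℕ) (hm : m ≠ 0) (hn : n ≠ 0) (co : m.Coprime n) (F G : ℕ → ℝ) (hF : ∀ x, F x = F (x % m))
    (hG : ∀ x, G x = G (x % n)) : ∑ x ∈ range (m * n), F x * G x = (∑ x ∈ range m, F x) * ∑ x ∈ range n, G x := by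
  rw [sum_mul_sum, ← sum_product']
  refine sum_bij' (fun x _ => (x % m, x % n)) (fun w _ => (Nat.chineseRemainder co w.1 w.2 : ℕ)) ?_ ?_ ?_ ?_ ?_
  · intro x _
    exact mem_product.2 ⟨mem_range.2 (Nat.mod_lt _ (Nat.pos_of_ne_zero hm)), mem_range.2 (Nat.mod_lt _ (Nat.pos_of_ne_zero hn))⟩
  · intro w _
    exact mem_range.2 (Nat.chineseRemainder_lt_mul co w.1 w.2 hm hn)
  · intro x hx
    have h1 := Nat.chineseRemainder_modEq_unique co (z := x) (a := x % m) (b := x % n) (Nat.mod_modEq x m).symm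
      (Nat.mod_modEq x n).symm
    exact (Nat.ModEq.eq_of_lt_of_lt h1 (mem_range.1 hx) (Nat.chineseRemainder_lt_mul co _ _ hm hn)).symm
  · intro w hw
    rw [mem_product, mem_range, mem_range] at hw
    have h1 := (Nat.chineseRemainder co w.1 w.2).prop
    refine Prod.ext ?_ ?_
    · show ((Nat.chineseRemainder co w.1 w.2 : ℕ) % m) = w.1
      have h2 : ((Nat.chineseRemainder co w.1 w.2 : ℕ) % m) = w.1 % m := h1.1
      rw [h2, Nat.mod_eq_of_lt hw.1]
    · show ((Nat.chineseRemainder co w.1 w.2 : ℕ) % n) = w.2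
      have h2 : ((Nat.chineseRemainder co w.1 w.2 : ℕ) % n) = w.2 % n := h1.2
      rw [h2, Nat.mod_eq_of_lt hw.2]
  · intro x _
    show F x * G x = F (x % m) * G (x % n)
    rw [← hF, ← hG]

lemma per_prod (S : Finset ℕ) (φ : ℕ → ℕ → ℝ) (hφ : ∀ p ∈ S, ∀ x, φ p x = φ p (x % p)) (x : ℕ) :
    ∏ p ∈ S, φ p x = ∏ p ∈ S, φ p (x % ∏ p ∈ S, p) := by
  refine prod_congr rfl fun p hp => ?_
  rw [hφ p hp x, hφ p hp (x % ∏ p ∈ S, p), Nat.mod_mod_of_dvd x (dvd_prod_of_mem (fun p => p) hp)]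

lemma crt_prod (S : Finset ℕ) (φ : ℕ → ℕ → ℝ) : (∀ p ∈ S, p.Prime) → (∀ p ∈ S, ∀ x, φ p x = φ p (x % p)) →
    ∑ x ∈ range (∏ p ∈ S, p), ∏ p ∈ S, φ p x = ∏ p ∈ S, ∑ x ∈ range p, φ p x := by
  classical
  induction S using Finset.induction_on with
  | empty => intro _ _; simp
  | insert a S ha ih =>
    intro hS hφ
    have hS' : ∀ p ∈ S, p.Prime := fun p hp => hS p (mem_insert_of_mem hp)
    have hφ' : ∀ p ∈ S, ∀ x, φ p x = φ p (x % p) := fun p hp => hφ p (mem_insert_of_mem hp)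
    have ih := ih hS' hφ'
    rw [prod_insert ha, prod_insert ha, ← ih]
    have hco : a.Coprime (∏ p ∈ S, p) := by
      refine Nat.Coprime.prod_right fun p hp => ?_
      rw [Nat.coprime_primes (hS a (mem_insert_self _ _)) (hS' p hp)]
      rintro rfl
      exact ha hp
    have h1 := crt_two a (∏ p ∈ S, p) (hS a (mem_insert_self _ _)).ne_zero
      (prod_ne_zero_iff.2 fun p hp => (hS' p hp).ne_zero) hco (φ a) (fun x => ∏ p ∈ S, φ p x)
      (hφ a (mem_insert_self _ _)) (per_prod S φ hφ')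
    rw [← h1]
    refine sum_congr rfl fun x _ => ?_
    rw [prod_insert ha]

lemma shift (Q : ℕ) (F : ℕ → ℝ) (hF : ∀ x, F (x + Q) = F x) (a : ℕ) : ∑ x ∈ range Q, F (a + x) = ∑ x ∈ range Q, F x := by
  induction a with
  | zero => simp
  | succ a ih =>
    rw [← ih]
    have h1 := sum_range_succ (fun x => F (a + x)) Q
    have h2 := sum_range_succ' (fun x => F (a + x)) Q
    have h3 : ∑ x ∈ range Q, F (a + 1 + x) = ∑ x ∈ range Q, F (a + (x + 1)) :=
      sum_congr rfl fun x _ => by rw [show a + 1 + x = a + (x + 1) by ring]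
    rw [h3]
    have h4 : F (a + Q) = F (a + 0) := by rw [hF, add_zero]
    have h5 := h1.symm.trans h2
    rw [h4] at h5
    linarith

lemma many (Q : ℕ) (F : ℕ → ℝ) (hF : ∀ x, F (x + Q) = F x) (c t : ℕ) :
    ∑ x ∈ range (t * Q), F (c + x) = t * ∑ x ∈ range Q, F x := by
  induction t with
  | zero => simp
  | succ t ih =>
    rw [Nat.succ_mul, sum_range_add, ih]
    have : ∑ x ∈ range Q, F (c + (t * Q + x)) = ∑ x ∈ range Q, F x := by
      rw [← shift Q F hF (c + t * Q)]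
      exact sum_congr rfl fun x _ => by rw [add_assoc]
    rw [this]
    push_cast
    ring

lemma ioc (m M : ℕ) (F : ℕ → ℝ) : ∑ n ∈ Ioc m (m + M), F n = ∑ x ∈ range M, F (m + 1 + x) := by
  induction M with
  | zero => simp
  | succ M ih =>
    rw [← add_assoc, sum_Ioc_succ_top (by omega), ih, sum_range_succ]
    rw [show m + 1 + M = m + M + 1 by ring]

lemma window (Q : ℕ) (hQ : 1 ≤ Q) (F : ℕ → ℝ) (hF : ∀ x, F (x + Q) = F x) (h0 : ∀ x, 0 ≤ F x) (m M : ℕ) (hM : Q ≤ M) :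
    ∑ n ∈ Ioc m (m + M), F n ≤ 2 * M / Q * ∑ x ∈ range Q, F x := by
  rw [ioc]
  have h1 : M ≤ (M / Q + 1) * Q := by
    have := Nat.div_add_mod M Q
    have h2 := Nat.mod_lt M hQ
    nlinarith
  have h2 : ∑ x ∈ range M, F (m + 1 + x) ≤ ∑ x ∈ range ((M / Q + 1) * Q), F (m + 1 + x) :=
    sum_le_sum_of_subset_of_nonneg (range_mono h1) fun _ _ _ => h0 _
  refine h2.trans ?_
  rw [many Q F hF]
  refine mul_le_mul_of_nonneg_right ?_ (sum_nonneg fun _ _ => h0 _)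
  have hQ0 : (0 : ℝ) < Q := by exact_mod_cast hQ
  rw [le_div_iff₀ hQ0]
  have h3 : (M / Q + 1) * Q ≤ 2 * M := by
    have := Nat.div_mul_le_self M Q
    nlinarith
  exact_mod_cast h3

lemma pow_le_lin (t : ℝ) (h0 : 0 ≤ t) (h1 : t ≤ 1) (n : ℕ) : (1 + t) ^ n ≤ 1 + (2 ^ n - 1) * t := by
  induction n with
  | zero => simp
  | succ n ih =>
    have h2 : (0 : ℝ) ≤ 2 ^ n - 1 := by
      have := one_le_pow₀ (n := n) (by norm_num : (1 : ℝ) ≤ 2)
      linarith
    have h3 : (2 ^ n - 1) * t * t ≤ (2 ^ n - 1) * t * 1 := mul_le_mul_of_nonneg_left h1 (mul_nonneg h2 h0)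
    calc (1 + t) ^ (n + 1) = (1 + t) ^ n * (1 + t) := pow_succ _ _
      _ ≤ (1 + (2 ^ n - 1) * t) * (1 + t) := mul_le_mul_of_nonneg_right ih (by linarith)
      _ = 1 + (2 ^ n - 1) * t + t + (2 ^ n - 1) * t * t := by ring
      _ ≤ 1 + (2 ^ (n + 1) - 1) * t := by
        rw [pow_succ]
        linarith

/-- the local weight -/
noncomputable def w (A p : ℕ) : ℝ := (((1 - 1 / (p : ℝ)) ^ 2)⁻¹) ^ A

lemma w_one {A p : ℕ} (hp : 2 ≤ p) : 1 ≤ w A p := by
  have hp' : (2 : ℝ) ≤ p := by exact_mod_cast hp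
  have h1 : 0 < 1 - 1 / (p : ℝ) := by
    have : 1 / (p : ℝ) ≤ 1 / 2 := one_div_le_one_div_of_le (by norm_num) hp'
    linarith
  have h2 : 1 - 1 / (p : ℝ) ≤ 1 := by
    have : 0 ≤ 1 / (p : ℝ) := by positivity
    linarith
  unfold w
  refine one_le_pow₀ ?_
  rw [one_le_inv₀ (by positivity)]
  exact pow_le_one₀ h1.le h2

lemma w_up {A p : ℕ} (hp : 2 ≤ p) : w A p ≤ 1 + 2 * 4 ^ A / p := by
  have hp' : (2 : ℝ) ≤ p := by exact_mod_cast hp
  have hp0 : (0 : ℝ) < p := by linarith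
  have h1 : 0 < 1 - 1 / (p : ℝ) := by
    have : 1 / (p : ℝ) ≤ 1 / 2 := one_div_le_one_div_of_le (by norm_num) hp'
    linarith
  have h2 : (1 - 1 / (p : ℝ))⁻¹ ≤ 1 + 2 / p := by
    rw [inv_le_iff_one_le_mul₀ h1]
    have e : (1 + 2 / (p : ℝ)) * (1 - 1 / p) = 1 + (p - 2) / (p : ℝ) ^ 2 := by
      field_simp
      ring
    rw [e]
    have : 0 ≤ ((p : ℝ) - 2) / (p : ℝ) ^ 2 := div_nonneg (by linarith) (by positivity)
    linarith
  unfold w
  rw [← inv_pow, ← pow_mul]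
  calc ((1 - 1 / (p : ℝ))⁻¹) ^ (2 * A) ≤ (1 + 2 / (p : ℝ)) ^ (2 * A) := pow_le_pow_left₀ (by positivity) h2 _
    _ ≤ 1 + (2 ^ (2 * A) - 1) * (2 / (p : ℝ)) := pow_le_lin _ (by positivity) (by rw [div_le_one hp0]; exact hp') _
    _ ≤ 1 + 2 * 4 ^ A / p := by
      have e : (2 : ℝ) ^ (2 * A) = 4 ^ A := by rw [pow_mul]; norm_num
      rw [e]
      have : 0 ≤ 2 / (p : ℝ) := by positivity
      have e2 : 2 * (4 : ℝ) ^ A / p = 4 ^ A * (2 / p) := by ring
      rw [e2]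
      have : ((4 : ℝ) ^ A - 1) * (2 / p) ≤ 4 ^ A * (2 / p) := mul_le_mul_of_nonneg_right (by linarith) this
      linarith

lemma w_prod (A N : ℕ) (hN : 1 ≤ N) : ∏ p ∈ N.primeFactors, w A p = rat N ^ (2 * A) := by
  have hN0 : (N : ℝ) ≠ 0 := by positivity
  have h1 : (N.totient : ℝ) = N * ∏ p ∈ N.primeFactors, (1 - 1 / (p : ℝ)) := by
    have := Nat.totient_eq_mul_prod_factors N
    have h2 : ((N.totient : ℚ) : ℝ) = ((N * ∏ p ∈ N.primeFactors, (1 - (p : ℚ)⁻¹) : ℚ) : ℝ) := by rw [this]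
    push_cast at h2
    rw [h2]
    congr 1
    refine prod_congr rfl fun p _ => by rw [one_div]
  have h3 : (∏ p ∈ N.primeFactors, (1 - 1 / (p : ℝ))) ≠ 0 := by
    intro h
    rw [h, mul_zero] at h1
    have : N.totient = 0 := by exact_mod_cast h1
    exact absurd this (Nat.totient_pos.2 hN).ne'
  unfold rat
  rw [h1]
  have h4 : (N : ℝ) / (N * ∏ p ∈ N.primeFactors, (1 - 1 / (p : ℝ))) = (∏ p ∈ N.primeFactors, (1 - 1 / (p : ℝ)))⁻¹ := by
    field_simp
  rw [h4, ← prod_inv_distrib, ← prod_pow]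
  refine prod_congr rfl fun p _ => ?_
  unfold w
  rw [← inv_pow, ← pow_mul]

lemma rat_mul (a b : ℕ) (ha : 1 ≤ a) (hb : 1 ≤ b) : rat (a * b) ≤ rat a * rat b := by
  unfold rat
  have h1 : (0 : ℝ) < a.totient := by exact_mod_cast Nat.totient_pos.2 ha
  have h2 : (0 : ℝ) < b.totient := by exact_mod_cast Nat.totient_pos.2 hb
  have h3 : (a.totient : ℝ) * b.totient ≤ (a * b).totient := by exact_mod_cast Nat.totient_super_multiplicative a b
  rw [div_mul_div_comm]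
  push_cast
  gcongr

open Classical in
theorem r3 {g : ℤ[X]} (hg : Gd g) : S_R3 g := by
  intro A
  obtain ⟨hd2, hlc⟩ := hg
  obtain ⟨D1, hD1⟩ : ∃ D1 : ℕ, D1 = g.natDegree * g.leadingCoeff.natAbs := ⟨_, rfl⟩
  have hD1p : 1 ≤ D1 := by
    rw [hD1]
    exact Nat.mul_pos (by omega) (Int.natAbs_pos.2 hlc.ne')
  obtain ⟨E, hE⟩ : ∃ E : ℝ, E = g.natDegree * (2 * 4 ^ A) := ⟨_, rfl⟩
  have hE0 : 0 ≤ E := by rw [hE]; positivity
  have hsum : Summable (fun n : ℕ => 1 / (n : ℝ) ^ 2) := Real.summable_one_div_nat_pow.2 (by norm_num)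
  obtain ⟨c, hc⟩ : ∃ c : ℝ, c = ∑' n : ℕ, 1 / (n : ℝ) ^ 2 := ⟨_, rfl⟩
  have hrat : ∀ n : ℕ, 0 ≤ rat n := fun n => by unfold rat; positivity
  refine ⟨2 * Real.exp (E * c) * rat D1 ^ (2 * A) + 1, by
    have := hrat D1
    positivity, fun y m₀ M i hi hM => ?_⟩
  obtain ⟨S, hS⟩ : ∃ S : Finset ℕ, S = (range (y + 1)).filter Nat.Prime := ⟨_, rfl⟩
  have hSp : ∀ p ∈ S, p.Prime := fun p hp => by rw [hS] at hp; exact (mem_filter.1 hp).2
  obtain ⟨Q, hQ⟩ : ∃ Q : ℕ, Q = ∏ p ∈ S, p := ⟨_, rfl⟩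
  have hQ1 : 1 ≤ Q := by
    rw [hQ]
    exact Nat.pos_of_ne_zero (prod_ne_zero_iff.2 fun p hp => (hSp p hp).ne_zero)
  have hQM : Q ≤ M := by
    refine le_trans ?_ hM
    rw [hQ, hS]
    exact primorial_le_four_pow y
  obtain ⟨φ, hφ⟩ : ∃ φ : ℕ → ℕ → ℝ, φ = fun (p n : ℕ) => if (p : ℤ) ∣ g.eval ((n + i : ℕ) : ℤ) - g.eval (n : ℤ) then w A p else 1 := ⟨_, rfl⟩
  have hφe : ∀ p n : ℕ, φ p n = if (p : ℤ) ∣ g.eval ((n + i : ℕ) : ℤ) - g.eval (n : ℤ) then w A p else 1 := fun p n => by rw [hφ]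
  have hdv : ∀ n : ℕ, g.eval ((n + i : ℕ) : ℤ) - g.eval (n : ℤ) = (Run7.h212.G.dif g i 0).eval (n : ℤ) := by
    intro n
    rw [Run7.h212.G.dif_eval]
    push_cast
    rw [add_zero]
  have hper : ∀ p ∈ S, ∀ x, φ p x = φ p (x % p) := by
    intro p _ x
    rw [hφe, hφe, hdv, hdv]
    have h1 : (p : ℤ) ∣ (Run7.h212.G.dif g i 0).eval (x : ℤ) - (Run7.h212.G.dif g i 0).eval ((x % p : ℕ) : ℤ) := by
      have h2 : (p : ℤ) ∣ (x : ℤ) - ((x % p : ℕ) : ℤ) := by
        push_cast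
        have := Int.emod_add_mul_ediv (x : ℤ) p
        exact ⟨(x : ℤ) / p, by linarith⟩
      exact h2.trans (sub_dvd_eval_sub _ _ _)
    have h3 : (p : ℤ) ∣ (Run7.h212.G.dif g i 0).eval (x : ℤ) ↔ (p : ℤ) ∣ (Run7.h212.G.dif g i 0).eval ((x % p : ℕ) : ℤ) := by
      constructor
      · intro h; exact (dvd_sub_right h).1 h1
      · intro h; exact (dvd_sub_left h).1 h1
    by_cases h : (p : ℤ) ∣ (Run7.h212.G.dif g i 0).eval (x : ℤ)
    · rw [if_pos h, if_pos (h3.1 h)]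
    · rw [if_neg h, if_neg (fun h4 => h (h3.2 h4))]
  have hφ0 : ∀ p ∈ S, ∀ x, 0 ≤ φ p x := by
    intro p hp x
    rw [hφe]
    have := w_one (A := A) (hSp p hp).two_le
    split_ifs <;> linarith
  have e1 : ∀ n : ℕ, hh y (g.eval ((n + i : ℕ) : ℤ) - g.eval (n : ℤ)) ^ A = ∏ p ∈ S, φ p n := by
    intro n
    unfold hh
    rw [← prod_pow, hS, ← filter_filter, prod_filter]
    refine prod_congr rfl fun p _ => ?_
    rw [hφe]
    rfl
  simp only [e1]
  have e2 := window Q hQ1 (fun n => ∏ p ∈ S, φ p n) (fun x => by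
    show ∏ p ∈ S, φ p (x + Q) = ∏ p ∈ S, φ p x
    rw [per_prod S φ hper (x + Q), per_prod S φ hper x, ← hQ, Nat.add_mod_right])
    (fun x => prod_nonneg fun p hp => hφ0 p hp x) m₀ M hQM
  refine e2.trans ?_
  have e3 : ∑ x ∈ range Q, ∏ p ∈ S, φ p x = ∏ p ∈ S, ∑ x ∈ range p, φ p x := by
    rw [hQ]
    exact crt_prod S φ hSp hper
  rw [e3]
  -- local factors
  have hNi : 1 ≤ D1 * i := Nat.mul_pos hD1p hi
  have loc : ∀ p ∈ S, ∑ x ∈ range p, φ p x ≤ p * ((if p ∣ D1 * i then w A p else 1) * Real.exp (E / (p : ℝ) ^ 2)) := by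
    intro p hp
    have hpp := hSp p hp
    have hp2 : (2 : ℝ) ≤ p := by exact_mod_cast hpp.two_le
    have hp0 : (0 : ℝ) < p := by linarith
    have hw1 := w_one (A := A) hpp.two_le
    have hw2 := w_up (A := A) hpp.two_le
    have hexp : 1 + E / (p : ℝ) ^ 2 ≤ Real.exp (E / (p : ℝ) ^ 2) := by
      have := Real.add_one_le_exp (E / (p : ℝ) ^ 2)
      linarith
    have hEp : 0 ≤ E / (p : ℝ) ^ 2 := by positivity
    by_cases hdiv : p ∣ D1 * i
    · rw [if_pos hdiv]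
      have h1 : ∑ x ∈ range p, φ p x ≤ ∑ _x ∈ range p, w A p := by
        refine sum_le_sum fun x _ => ?_
        rw [hφe]
        split_ifs <;> linarith
      rw [sum_const, card_range, nsmul_eq_mul] at h1
      refine h1.trans ?_
      refine mul_le_mul_of_nonneg_left ?_ hp0.le
      calc w A p = w A p * 1 := (mul_one _).symm
        _ ≤ w A p * Real.exp (E / (p : ℝ) ^ 2) := mul_le_mul_of_nonneg_left (by linarith) (by linarith)
    · rw [if_neg hdiv, one_mul]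
      have h1 : ∑ x ∈ range p, φ p x = p + #((range p).filter fun x : ℕ => (p : ℤ) ∣ (Run7.h212.G.dif g i 0).eval (x : ℤ)) * (w A p - 1) := by
        have : ∀ x ∈ range p, φ p x = 1 + (if (p : ℤ) ∣ (Run7.h212.G.dif g i 0).eval (x : ℤ) then (1 : ℝ) else 0) * (w A p - 1) := by
          intro x _
          rw [hφe, hdv]
          split_ifs <;> ring
        rw [sum_congr rfl this, sum_add_distrib, ← sum_mul, sum_const, card_range, nsmul_eq_mul, mul_one, card_filter]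
        push_cast
        rfl
      have h2 : #((range p).filter fun x : ℕ => (p : ℤ) ∣ (Run7.h212.G.dif g i 0).eval (x : ℤ)) ≤ g.natDegree := by
        have h3 : ¬ (p : ℤ) ∣ (Run7.h212.G.dif g i 0).coeff (g.natDegree - 1) := by
          rw [Run7.h212.G.dif_coeff g i 0 (by omega), sub_zero]
          intro h4
          apply hdiv
          have h5 := Int.natAbs_dvd_natAbs.2 h4
          rw [Int.natAbs_mul, Int.natAbs_mul, Int.natAbs_natCast, Int.natAbs_natCast, Int.natAbs_natCast, ← hD1] at h5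
          exact h5
        have h6 : (Run7.h212.G.dif g i 0).natDegree ≤ g.natDegree - 1 := by
          rw [natDegree_le_iff_coeff_eq_zero]
          intro n hn
          exact Run7.h212.G.dif_coeff_hi g i 0 n (by omega)
        have := Run7.h212.G.card_root p hpp _ _ h6 h3
        omega
      rw [h1]
      have h3 : (#((range p).filter fun x : ℕ => (p : ℤ) ∣ (Run7.h212.G.dif g i 0).eval (x : ℤ)) : ℝ) ≤ g.natDegree := by
        exact_mod_cast h2
      have h4 : (#((range p).filter fun x : ℕ => (p : ℤ) ∣ (Run7.h212.G.dif g i 0).eval (x : ℤ)) : ℝ) * (w A p - 1) ≤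
          g.natDegree * (2 * 4 ^ A / p) :=
        mul_le_mul h3 (by linarith) (by linarith) (Nat.cast_nonneg _)
      have h5 : (p : ℝ) * (1 + E / (p : ℝ) ^ 2) = p + g.natDegree * (2 * 4 ^ A / p) := by
        rw [hE]
        field_simp
      calc _ ≤ (p : ℝ) + (g.natDegree : ℝ) * (2 * 4 ^ A / (p : ℝ)) := by linarith
        _ = (p : ℝ) * (1 + E / (p : ℝ) ^ 2) := h5.symm
        _ ≤ _ := mul_le_mul_of_nonneg_left hexp hp0.le
  have e4 : ∏ p ∈ S, ∑ x ∈ range p, φ p x ≤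
      Q * (rat (D1 * i) ^ (2 * A) * Real.exp (E * c)) := by
    refine (prod_le_prod (fun p hp => sum_nonneg fun x _ => hφ0 p hp x) loc).trans ?_
    rw [prod_mul_distrib, prod_mul_distrib]
    have a1 : ∏ p ∈ S, (p : ℝ) = Q := by
      rw [hQ]
      push_cast
      rfl
    rw [a1]
    refine mul_le_mul_of_nonneg_left ?_ (Nat.cast_nonneg _)
    refine mul_le_mul ?_ ?_ (prod_nonneg fun p _ => (Real.exp_pos _).le) (pow_nonneg (hrat _) _)
    · rw [← w_prod A _ hNi, ← prod_filter]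
      have hsub : S.filter (fun p => p ∣ D1 * i) ⊆ (D1 * i).primeFactors := by
        intro p hp
        rw [mem_filter] at hp
        exact Nat.mem_primeFactors.2 ⟨hSp p hp.1, hp.2, by omega⟩
      have h1 : (1 : ℝ) ≤ ∏ p ∈ (D1 * i).primeFactors \ S.filter (fun p => p ∣ D1 * i), w A p := by
        calc (1 : ℝ) = ∏ _p ∈ (D1 * i).primeFactors \ S.filter (fun p => p ∣ D1 * i), (1 : ℝ) := by rw [prod_const_one]
          _ ≤ _ := prod_le_prod (fun _ _ => zero_le_one) fun p hp =>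
            w_one (Nat.prime_of_mem_primeFactors (mem_sdiff.1 hp).1).two_le
      rw [← prod_sdiff hsub]
      refine le_mul_of_one_le_left (prod_nonneg fun p hp => ?_) h1
      have := w_one (A := A) (hSp p (mem_filter.1 hp).1).two_le
      linarith
    · rw [← Real.exp_sum]
      refine Real.exp_le_exp.2 ?_
      have : ∑ p ∈ S, E / (p : ℝ) ^ 2 = E * ∑ p ∈ S, 1 / (p : ℝ) ^ 2 := by
        rw [mul_sum]
        exact sum_congr rfl fun p _ => by ring
      rw [this, hc]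
      exact mul_le_mul_of_nonneg_left (hsum.sum_le_tsum S fun n _ => by positivity) hE0
  have hQ0 : (0 : ℝ) < Q := by exact_mod_cast hQ1
  have e5 : rat (D1 * i) ^ (2 * A) ≤ rat D1 ^ (2 * A) * rat i ^ (2 * A) := by
    rw [← mul_pow]
    exact pow_le_pow_left₀ (hrat _) (rat_mul _ _ hD1p hi) _
  have h0 : (0 : ℝ) ≤ 2 * M / Q := by positivity
  calc 2 * (M : ℝ) / Q * ∏ p ∈ S, ∑ x ∈ range p, φ p x
      ≤ 2 * M / Q * (Q * (rat (D1 * i) ^ (2 * A) * Real.exp (E * c))) := mul_le_mul_of_nonneg_left e4 h0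
    _ = 2 * M * Real.exp (E * c) * rat (D1 * i) ^ (2 * A) := by field_simp
    _ ≤ 2 * M * Real.exp (E * c) * (rat D1 ^ (2 * A) * rat i ^ (2 * A)) :=
        mul_le_mul_of_nonneg_left e5 (by positivity)
    _ = (2 * Real.exp (E * c) * rat D1 ^ (2 * A)) * M * rat i ^ (2 * A) := by ring
    _ ≤ (2 * Real.exp (E * c) * rat D1 ^ (2 * A) + 1) * M * rat i ^ (2 * A) := by
        have := hrat i
        gcongr
        linarith

end Run7.h285.R3
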