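import Mathlib
import Pool.Agent.Run7.h285.V.Stm
import Pool.Agent.H646.Defs

/-!
# Project RP (helper285): residue patterns and small gaps of consecutive simultaneous prime values of polynomials

`f_1, …, f_k` fixed polynomials of degrees `≥ 2` with positive leading coefficients (`Gd`), `L = log X`. An event is a number `n` for which all
`|f_l(n) + a_l|` are primes. For every modulus `q`, every admissible pattern `(r1, r2)` of residues modulo `q` and every `λ > 0` a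
positive proportion (at least `κ λ`) of the events `n` (over all `(a, n)`, `a ∈ Bx k X`, `m₀ < n ≤ m₀ + M`) are `≡ r1` and have the next event `n'`
in the class `r2` and at distance `n' - n ≤ λ L^k` (mean distance: `L^k`). Host: MP_74f661_nt (residues mod 4 of consecutive twin prime
pairs), slot 4.

Idea. (#pairs of events `n ≡ r1`, `n + i ≡ r2`, `1 ≤ i ≤ H`) `- ` (#triples of events `n, n + i, n + j`, `1 ≤ i < j ≤ H`) `≤` the wanted number,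
`H = ⌊λ L^k⌋`. The number of the `a` for which `n`, `n + i` are events is the product over `l` of the numbers `c2 (f l) X n (n + i)`. Pairs: for
almost all `n` the law `V.S_GCM` (a theorem: `Run7.h376.V.gcm`, `Run7/h376/V/Main.lean`) gives `c2 ≥ X / (8 L²)` if `f_l(n + i) - f_l(n)` is even. Triples: upper bound
sieve for `c3`, with the factor `∏ (1 - 1/p)^(-2)` over the small primes dividing one of the differences, whose mean over `n` is bounded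
by the Chinese remainder theorem.

Pieces: `r1 : Gd g → V.S_GCM g → S_R1 g`, `r2 : S_R2`, `r3 : Gd g → S_R3 g`, `r5 : 1 ≤ k → (∀ l, Gd (f l)) → S_R2 → (∀ l, S_R3 (f l)) → S_R5 f`,
`r6 : 1 ≤ k → (∀ l, Gd (f l)) → (∀ l, S_R1 (f l)) → S_R6 f`, `r7 : 1 ≤ k → (∀ l, Gd (f l)) → S_R5 f → S_R6 f → S_RP f` (helper285).
Constants may be changed freely inside the proofs.
-/

set_option autoImplicit false

namespace Run7.h285.R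

open Finset Filter Topology Polynomial
open Run7.h285.S (Bx uu vv ll gg)
open Run7.h285.G (Gd pr)
open Run7.h285.V (mc)
open Pool.Agent.H646 (rat)

/-- the number of the `c`, `|c| ≤ X`, for which `|g(n) + c|` and `|g(n') + c|` are primes -/
noncomputable def c2 (g : ℤ[X]) (X n n' : ℕ) : ℕ :=
  #((Icc (-(X : ℤ)) X).filter fun c => (g.eval (n : ℤ) + c).natAbs.Prime ∧ (g.eval (n' : ℤ) + c).natAbs.Prime)

/-- the number of the `c`, `|c| ≤ X`, for which `|b₁ + c|`, `|b₂ + c|`, `|b₃ + c|` are primes -/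
noncomputable def t3 (X : ℕ) (b₁ b₂ b₃ : ℤ) : ℕ :=
  #((Icc (-(X : ℤ)) X).filter fun c => (b₁ + c).natAbs.Prime ∧ (b₂ + c).natAbs.Prime ∧ (b₃ + c).natAbs.Prime)

/-- the number of the `c`, `|c| ≤ X`, for which `|g(n) + c|`, `|g(n') + c|` and `|g(n'') + c|` are primes -/
noncomputable def c3 (g : ℤ[X]) (X n n' n'' : ℕ) : ℕ := t3 X (g.eval (n : ℤ)) (g.eval (n' : ℤ)) (g.eval (n'' : ℤ))

open Classical in
/-- the product of `(1 - 1/p)^(-2)` over the primes `p ≤ y` dividing `δ` -/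
noncomputable def hh (y : ℕ) (δ : ℤ) : ℝ :=
  ∏ p ∈ (range (y + 1)).filter (fun p : ℕ => p.Prime ∧ (p : ℤ) ∣ δ), ((1 - 1 / (p : ℝ)) ^ 2)⁻¹

/-- **R1** (pairs; from `V.S_GCM g`, for `Gd g`). Write `z = ⌊L^E⌋`, `gg z = uu - vv z` (`Pool.Agent…ff_two` in `Run7/h285/E3a.lean`), `n = m`, `n' = m + i`.
`c2 g X n n' = ∑_c uu(g(n) + c) uu(g(n') + c)`, and `uu uu' - vv vv' = uu gg' + gg vv'`: (i) `∑_m |mc g uu (gg z) X m (m + i)| ≤ X M / L^(U')` by GCM with `F = uu`,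
`(i, j) = (0, i)`; (ii) `vv z ≤ 7 L` in absolute value (see `Run7/h973/G/SM1.lean`, `Run7/h270/V/GVO.lean`), GCM with `F = vv z / (7 L)`, `(i, j) = (i, 0)`, and
`∑_c gg(g(n) + c) vv(g(n') + c) = mc g vv gg X n' n`. So by Markov outside a set of `M / L^U` numbers `m` one has
`c2 ≥ ∑_c vv(g(n) + c) vv(g(n') + c) - X / L^3`. (iii) Lower bound of the model sum: `vv z y = (Vz z)⁻¹ / log |y|` if no prime `≤ z` divides `y`, and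
`|y| ≤ 3 X L^C`, so `1 / log |y| ≥ 1 / (2 L)`; by `Pool.Agent.TH892.SW.fl_set 2` (`TH892/SW/S2.lean`; `X := 2 X + 1`, `P` = primes `≤ z`, `R p r` = `p` divides
`g(n) - X - 1 + r` or `g(n') - X - 1 + r`) the number of the `c` with `(g(n) + c)(g(n') + c)` prime to all primes `≤ z` is at least
`(1/2) (2 X + 1) ∏_{p ≤ z} (1 - ω_p / p) - z^(…)`, where `ω_2 = 1` since `g(n) ≡ g(n') (mod 2)`, `ω_p ≤ 2` for `p ≥ 3`. And
`(Vz z)⁻² ∏ (1 - ω_p / p) ≥ 2 ∏_{3 ≤ p ≤ z} (1 - 1 / (p - 1)²) ≥ 2 ∏_{n ≥ 2} (1 - 1/n²) = 1`. At most 6 values of `c` have `|g(n) + c| ≤ 1` or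
`|g(n') + c| ≤ 1`. Total: `≥ (1 / (4 L²)) (X + 1/2) - small ≥ X / (8 L²)`. -/
def S_R1 (g : ℤ[X]) : Prop := ∀ U C D : ℕ, ∃ B X₀ : ℕ, ∀ X : ℕ, X₀ ≤ X → ∀ m₀ M i : ℕ, 1 ≤ i → (i : ℝ) ≤ Real.log X ^ D →
  (X : ℝ) ^ (1 / 3 : ℝ) * Real.log X ^ B ≤ (M : ℝ) ^ (g.natDegree - 1) → ((m₀ : ℝ) + M) ^ g.natDegree ≤ X * Real.log X ^ C →
  (#((Ioc m₀ (m₀ + M)).filter fun m : ℕ => (2 : ℤ) ∣ g.eval ((m + i : ℕ) : ℤ) - g.eval (m : ℤ) ∧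
    (c2 g X m (m + i) : ℝ) < X / (8 * Real.log X ^ 2)) : ℝ) ≤ M / Real.log X ^ U

/-- **R2** (upper bound sieve for triples, elementary). `z = ⌊X^δ⌋`, `δ = δ(C0)` small, `Pool.Agent.TH892.SW.fl_set 3` with `b = C0`, `P` = primes `≤ z`, `R p r` = `p`
divides one of the `b_i - X - 1 + r`: the number of the `c` for which no prime `≤ z` divides `(b₁ + c)(b₂ + c)(b₃ + c)` is at most
`2 (2 X + 1) ∏_{p ≤ z} (1 - ω_p / p) + z^(…)` (the error is `≤ √X`); the others have some `|b_i + c| ≤ z` (at most `3 (2 z + 1)` values).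
`1 - ω_p / p ≤ (1 - 1/p)^(ω_p)`, `ω_p = 3` unless `p` divides a difference and always `ω_p ≥ 1`: `∏_{p ≤ z} (1 - ω_p/p) ≤ ∏_{p ≤ z} (1 - 1/p)^3 · ∏ (1 - 1/p)^(-2)` over the `p ≤ z` dividing
`Δ = (b₁ - b₂)(b₁ - b₃)(b₂ - b₃)`. Mertens: `∏_{p ≤ z} (1 - 1/p)^3 ≤ K / L^3` (`Pool.Agent.H373R2.T7.Vz_log` or similar gives `(Vz z)⁻¹` upper bounds; for an UPPER bound of `Vz` use
`∏_{p ≤ z} (1 - 1/p)⁻¹ ≥ ∑_{n ≤ z} 1/n ≥ log z`). The primes `p > y = ⌊η L⌋` dividing `Δ ≠ 0`, `|Δ| ≤ (4 X²)³`: at most `7 L / log y ≤ 7 L` of them, each factor `≤ (1 - 1/y)^(-2)`, product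
`≤ exp(28 L / y) ≤ exp (56 / η)`. -/
def S_R2 : Prop := ∀ η : ℝ, 0 < η → ∃ (K : ℝ) (X₀ : ℕ), 0 < K ∧ ∀ X : ℕ, X₀ ≤ X → ∀ b₁ b₂ b₃ : ℤ, b₁ ≠ b₂ → b₁ ≠ b₃ → b₂ ≠ b₃ →
  (b₁.natAbs : ℝ) ≤ (X : ℝ) ^ 2 → (b₂.natAbs : ℝ) ≤ (X : ℝ) ^ 2 → (b₃.natAbs : ℝ) ≤ (X : ℝ) ^ 2 →
  (t3 X b₁ b₂ b₃ : ℝ) ≤ K * (X / Real.log X ^ 3) *
    (hh ⌊η * Real.log X⌋₊ (b₂ - b₁) * hh ⌊η * Real.log X⌋₊ (b₃ - b₁) * hh ⌊η * Real.log X⌋₊ (b₃ - b₂))

/-- **R3** (means of `hh`, elementary; for `Gd g`, `d = deg g`). `n ↦ ∏_{p ≤ y, p | g(n + i) - g(n)} (1 - 1/p)^(-2A)` is periodic modulo `Q = ∏_{p ≤ y} p ≤ 4^y ≤ M`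
(`primorial_le_4_pow`); `(m₀, m₀ + M]` is covered by at most `M / Q + 1 ≤ 2 M / Q` complete periods; by the Chinese remainder theorem the sum over a period is
`Q ∏_{p ≤ y} (1 + (ρ_p / p) ((1 - 1/p)^(-2A) - 1))`, `ρ_p` = number of `x mod p` with `p | g(x + i) - g(x)`, which is at most `d - 1` if `p` does not divide
`d · lc(g) · i` and at most `p` always; `(1 - 1/p)^(-2A) - 1 ≤ K_A / p`. So the product is at most
`∏_{p | d lc(g)} (1 - 1/p)^(-2A) ∏_{p | i} (1 - 1/p)^(-2A) ∏_p (1 + (d - 1) K_A / p²)`, and `∏_{p | i} (1 - 1/p)⁻¹ = rat i`. -/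
def S_R3 (g : ℤ[X]) : Prop := ∀ A : ℕ, ∃ K : ℝ, 0 < K ∧ ∀ y m₀ M i : ℕ, 1 ≤ i → 4 ^ y ≤ M →
  ∑ n ∈ Ioc m₀ (m₀ + M), hh y (g.eval ((n + i : ℕ) : ℤ) - g.eval (n : ℤ)) ^ A ≤ K * M * rat i ^ (2 * A)

/-- **R5** (triples; from R2 and R3 for all `f l`). `η = 1 / (10 D₀)`, `D₀ = max deg f_l`, `y = ⌊η L⌋`, so `4^y ≤ M` (`M ≥ X^(1 / (3 (d - 1)))`). For `m` below a constant
`n₀(f)` the values `f_l(m), f_l(m + i), f_l(m + j)` may coincide: these `m` contribute at most `n₀ H² (2 X + 1)^k` (negligible); for larger `m` they are strictly increasing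
(`i < j`), `|f_l(m + j)| ≤ X²`. By R2 the product over `l` is at most `(K X / L³)^k ∏_l hh(f_l(m + i) - f_l(m)) hh(f_l(m + j) - f_l(m)) hh(f_l(m + j) - f_l(m + i))`, a product of `3 k` factors
`≤ ∑` of their `3k`-th powers; R3 with `A = 3 k` (for the last factor: `n = m + i`, shift `j - i`) gives `K M (rat i^(6k) + rat j^(6k) + rat (j - i)^(6k)) k`, and
`∑_{i < j ≤ H} ≤ K H²` by `Pool.Agent.H646.MomentM.rat_moment` (`H646/Moment.lean`). (`1 ≤ k`.) -/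
def S_R5 {k : ℕ} (f : Fin k → ℤ[X]) : Prop := ∃ K : ℝ, 0 < K ∧ ∀ C D : ℕ, ∃ X₀ : ℕ, ∀ X : ℕ, X₀ ≤ X → ∀ m₀ M H : ℕ, 1 ≤ H →
  (H : ℝ) ≤ Real.log X ^ D → (∀ l, (X : ℝ) ^ (1 / 3 : ℝ) ≤ (M : ℝ) ^ ((f l).natDegree - 1)) →
  (∀ l, ((m₀ : ℝ) + M) ^ (f l).natDegree ≤ X * Real.log X ^ C) →
  ∑ m ∈ Ioc m₀ (m₀ + M), ∑ j ∈ Icc 1 H, ∑ i ∈ Ico 1 j, ∏ l, (c3 (f l) X m (m + i) (m + j) : ℝ) ≤
    K * ((X : ℝ) ^ k * M * (H : ℝ) ^ 2 / (Real.log X ^ k) ^ 3)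

/-- **R6** (pairs; from R1 for all `f l`). Only the `i` with `i ≡ r2 - r1 (mod q)` and `i` even (if `q` is odd; at least `⌊H / (2 q)⌋ ≥ H / (4 q)` of them); then
`f_l(m + i) ≡ f_l(m) (mod 2)` for all `m ≡ r1 (mod q)` (if `q` is even by the parity condition, as `m ≡ r1`, `m + i ≡ r2 (mod 2)`). For each `i` all `m ≡ r1 (mod q)` (at least
`M / (2 q)`) but at most `k M / L` have `c2 (f l) X m (m + i) ≥ X / (8 L²)` for all `l` by R1. -/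
def S_R6 {k : ℕ} (f : Fin k → ℤ[X]) : Prop := ∀ q r1 r2 : ℕ, 1 ≤ q →
  (2 ∣ q → ∀ l, (2 : ℤ) ∣ (f l).eval (r1 : ℤ) - (f l).eval (r2 : ℤ)) → ∃ c : ℝ, 0 < c ∧ ∀ C D : ℕ, ∃ B X₀ : ℕ, ∀ X : ℕ, X₀ ≤ X →
  ∀ m₀ M H : ℕ, 2 * q ≤ H → (H : ℝ) ≤ Real.log X ^ D →
  (∀ l, (X : ℝ) ^ (1 / 3 : ℝ) * Real.log X ^ B ≤ (M : ℝ) ^ ((f l).natDegree - 1)) →
  (∀ l, ((m₀ : ℝ) + M) ^ (f l).natDegree ≤ X * Real.log X ^ C) →
  c * ((X : ℝ) ^ k * M * H / (Real.log X ^ k) ^ 2) ≤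
    ∑ m ∈ (Ioc m₀ (m₀ + M)).filter (fun m : ℕ => m % q = r1 % q), ∑ i ∈ (Icc 1 H).filter (fun i : ℕ => (m + i) % q = r2 % q),
      ∏ l, (c2 (f l) X m (m + i) : ℝ)

/-- `n` is an event: all `|f_l(n) + a_l|` are primes -/
def Ev {k : ℕ} (f : Fin k → ℤ[X]) (a : Fin k → ℤ) (n : ℕ) : Prop := ∀ l, ((f l).eval (n : ℤ) + a l).natAbs.Prime

open Classical in
/-- **RP** (the hand-in; written by helper285) -/
def S_RP {k : ℕ} (f : Fin k → ℤ[X]) : Prop := ∀ q r1 r2 : ℕ, 1 ≤ q →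
  (2 ∣ q → ∀ l, (2 : ℤ) ∣ (f l).eval (r1 : ℤ) - (f l).eval (r2 : ℤ)) → ∃ κ : ℝ, 0 < κ ∧ ∀ lam : ℝ, 0 < lam → lam ≤ 1 → ∀ C : ℕ,
  ∃ B X₀ : ℕ, ∀ X : ℕ, X₀ ≤ X → ∀ m₀ M : ℕ,
  (∀ l, (X : ℝ) ^ (1 / 3 : ℝ) * Real.log X ^ B ≤ (M : ℝ) ^ ((f l).natDegree - 1)) →
  (∀ l, ((m₀ : ℝ) + M) ^ (f l).natDegree ≤ X * Real.log X ^ C) →
  κ * lam * ((X : ℝ) ^ k * M / Real.log X ^ k) ≤
    (#((Bx k X ×ˢ Ioc m₀ (m₀ + M)).filter fun w => Ev f w.1 w.2 ∧ w.2 % q = r1 % q ∧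
      ∃ n' : ℕ, w.2 < n' ∧ (n' : ℝ) ≤ w.2 + lam * Real.log X ^ k ∧ Ev f w.1 n' ∧ n' % q = r2 % q ∧
        ∀ t : ℕ, w.2 < t → t < n' → ¬ Ev f w.1 t) : ℝ)

end Run7.h285.R
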