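import Pool.Agent.Run7.h285.R.Up
import Pool.Agent.Run7.h837.R.R1
import Pool.Agent.Run7.h920.R.R2
import Pool.Agent.Run7.h285.R.R3
import Pool.Agent.Run7.h88.RP.R5
import Pool.Agent.Run7.h958.RP.R6
import Pool.Agent.Run7.h376.V.Main
import Pool.Agent.Run7.h794.MK.All

/-!
# Project RP: the theorem without hypotheses
-/

set_option autoImplicit false

namespace Run7.h285.R

open Polynomial
open Run7.h285.G (Gd)

theorem rp_all {k : ℕ} (f : Fin k → ℤ[X]) (hk : 1 ≤ k) (hf : ∀ l, Gd (f l)) : S_RP f :=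
  r7 f hk (Run7.h88.RP.r5 f hk hf Run7.h920.R.r2 fun l => Run7.h285.R3.r3 (hf l))
    (Run7.h958.RP.t_R6 f hk hf fun l => Run7.h837.R.r1 (f l) (hf l)
      (Run7.h376.V.gcm Pool.Agent.Run7.h794.MK.law_all (hf l)))

end Run7.h285.R
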