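import Pool.Agent.Run7.h285.R.Stm

/-!
# Project RP: the assembly (R7)
-/

set_option autoImplicit false

namespace Run7.h285.R

open Finset Filter Topology Polynomial
open Run7.h285.S (Bx)

open Classical in
/-- the indicator function of the events -/
noncomputable def ee {k : ℕ} (f : Fin k → ℤ[X]) (a : Fin k → ℤ) (n : ℕ) : ℝ := if Ev f a n then 1 else 0

lemma ee_nonneg {k : ℕ} (f : Fin k → ℤ[X]) (a : Fin k → ℤ) (n : ℕ) : 0 ≤ ee f a n := by
  unfold ee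
  split_ifs <;> norm_num

open Classical in
lemma card2 {k : ℕ} (f : Fin k → ℤ[X]) (X n n' : ℕ) :
    ∏ l, (c2 (f l) X n n' : ℝ) = ∑ a ∈ Bx k X, ee f a n * ee f a n' := by
  have h : ∀ l : Fin k, (c2 (f l) X n n' : ℝ) = ∑ c ∈ Icc (-(X : ℤ)) X,
      if ((f l).eval (n : ℤ) + c).natAbs.Prime ∧ ((f l).eval (n' : ℤ) + c).natAbs.Prime then (1 : ℝ) else 0 := by
    intro l
    unfold c2
    rw [card_filter]
    push_cast
    rfl
  simp only [h]
  rw [Finset.prod_univ_sum]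
  unfold Bx
  refine sum_congr rfl fun a _ => ?_
  rw [Finset.prod_boole]
  unfold ee Ev
  by_cases h1 : ∀ l, ((f l).eval (n : ℤ) + a l).natAbs.Prime
  · by_cases h2 : ∀ l, ((f l).eval (n' : ℤ) + a l).natAbs.Prime
    · rw [if_pos h1, if_pos h2, if_pos (fun l _ => ⟨h1 l, h2 l⟩), mul_one]
    · rw [if_neg h2, mul_zero, if_neg]
      exact fun h3 => h2 fun l => (h3 l (mem_univ l)).2
  · rw [if_neg h1, zero_mul, if_neg]
    exact fun h3 => h1 fun l => (h3 l (mem_univ l)).1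

open Classical in
lemma card3 {k : ℕ} (f : Fin k → ℤ[X]) (X n n' n'' : ℕ) :
    ∏ l, (c3 (f l) X n n' n'' : ℝ) = ∑ a ∈ Bx k X, ee f a n * (ee f a n' * ee f a n'') := by
  have h : ∀ l : Fin k, (c3 (f l) X n n' n'' : ℝ) = ∑ c ∈ Icc (-(X : ℤ)) X,
      if ((f l).eval (n : ℤ) + c).natAbs.Prime ∧ ((f l).eval (n' : ℤ) + c).natAbs.Prime ∧
        ((f l).eval (n'' : ℤ) + c).natAbs.Prime then (1 : ℝ) else 0 := by
    intro l
    unfold c3 t3
    rw [card_filter]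
    push_cast
    rfl
  simp only [h]
  rw [Finset.prod_univ_sum]
  unfold Bx
  refine sum_congr rfl fun a _ => ?_
  rw [Finset.prod_boole]
  unfold ee Ev
  by_cases h1 : ∀ l, ((f l).eval (n : ℤ) + a l).natAbs.Prime
  · by_cases h2 : ∀ l, ((f l).eval (n' : ℤ) + a l).natAbs.Prime
    · by_cases h4 : ∀ l, ((f l).eval (n'' : ℤ) + a l).natAbs.Prime
      · rw [if_pos h1, if_pos h2, if_pos h4, if_pos (fun l _ => ⟨h1 l, h2 l, h4 l⟩), mul_one, mul_one]
      · rw [if_neg h4, mul_zero, mul_zero, if_neg]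
        exact fun h3 => h4 fun l => (h3 l (mem_univ l)).2.2
    · rw [if_neg h2, zero_mul, mul_zero, if_neg]
      exact fun h3 => h2 fun l => (h3 l (mem_univ l)).2.1
  · rw [if_neg h1, zero_mul, if_neg]
    exact fun h3 => h1 fun l => (h3 l (mem_univ l)).1

open Classical in
/-- the combinatorial inequality for one starting point -/
lemma pt (E : ℕ → Prop) (q r2 m H : ℕ) :
    (∑ i ∈ (Icc 1 H).filter (fun i : ℕ => (m + i) % q = r2 % q), (if E (m + i) then (1 : ℝ) else 0)) ≤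
      (if ∃ n', m < n' ∧ n' ≤ m + H ∧ E n' ∧ n' % q = r2 % q ∧ ∀ t, m < t → t < n' → ¬ E t then (1 : ℝ) else 0) +
      ∑ j ∈ Icc 1 H, ∑ i ∈ Ico 1 j, (if E (m + i) then (1 : ℝ) else 0) * (if E (m + j) then (1 : ℝ) else 0) := by
  have hnn : ∀ n, (0 : ℝ) ≤ if E n then (1 : ℝ) else 0 := fun n => by split_ifs <;> norm_num
  by_cases hS : ∃ i, 1 ≤ i ∧ i ≤ H ∧ E (m + i)
  · obtain ⟨h1, h2, h3⟩ := Nat.find_spec hS
    have h4 : ∀ i, i < Nat.find hS → ¬ (1 ≤ i ∧ i ≤ H ∧ E (m + i)) := fun i hi => Nat.find_min hS hi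
    generalize Nat.find hS = i0 at h1 h2 h3 h4
    have e1 : (∑ i ∈ (Icc 1 H).filter (fun i : ℕ => (m + i) % q = r2 % q), (if E (m + i) then (1 : ℝ) else 0)) ≤
        (∑ i ∈ Icc 1 H, if (m + i) % q = r2 % q ∧ i = i0 then (1 : ℝ) else 0) +
          ∑ i ∈ Icc 1 H, if i = i0 then (0 : ℝ) else if E (m + i) then 1 else 0 := by
      rw [sum_filter, ← sum_add_distrib]
      refine sum_le_sum fun i _ => ?_
      by_cases hi : i = i0
      · subst hi
        by_cases hq : (m + i) % q = r2 % q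
        · rw [if_pos hq, if_pos (⟨hq, rfl⟩ : (m + i) % q = r2 % q ∧ i = i), if_pos (rfl : i = i), add_zero]
          split_ifs <;> norm_num
        · rw [if_neg hq, if_neg (fun h => hq h.1 : ¬ ((m + i) % q = r2 % q ∧ i = i)), if_pos (rfl : i = i), add_zero]
      · rw [if_neg (fun h => hi h.2 : ¬ ((m + i) % q = r2 % q ∧ i = i0)), if_neg hi, zero_add]
        by_cases hq : (m + i) % q = r2 % q
        · rw [if_pos hq]
        · rw [if_neg hq]
          exact hnn _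
    have e2 : (∑ i ∈ Icc 1 H, if (m + i) % q = r2 % q ∧ i = i0 then (1 : ℝ) else 0) ≤
        if ∃ n', m < n' ∧ n' ≤ m + H ∧ E n' ∧ n' % q = r2 % q ∧ ∀ t, m < t → t < n' → ¬ E t then (1 : ℝ) else 0 := by
      by_cases hq : (m + i0) % q = r2 % q
      · rw [if_pos ⟨m + i0, by omega, by omega, h3, hq, fun t ht1 ht2 hE =>
          h4 (t - m) (by omega) ⟨by omega, by omega, by rw [Nat.add_sub_cancel' ht1.le]; exact hE⟩⟩]
        have : ∀ i ∈ Icc 1 H, (if (m + i) % q = r2 % q ∧ i = i0 then (1 : ℝ) else 0) ≤ if i = i0 then 1 else 0 := by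
          intro i _
          by_cases hi : i = i0
          · rw [if_pos hi]
            split_ifs <;> norm_num
          · rw [if_neg hi, if_neg (fun h => hi h.2)]
        refine (sum_le_sum this).trans ?_
        rw [sum_ite_eq' (Icc 1 H) i0 (fun _ => (1 : ℝ)), if_pos (mem_Icc.2 ⟨h1, h2⟩)]
      · have : ∀ i ∈ Icc 1 H, (if (m + i) % q = r2 % q ∧ i = i0 then (1 : ℝ) else 0) = 0 := by
          intro i _
          rw [if_neg]
          rintro ⟨h5, rfl⟩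
          exact hq h5
        rw [sum_congr rfl this, sum_const_zero]
        split_ifs <;> norm_num
    have e3 : (∑ i ∈ Icc 1 H, if i = i0 then (0 : ℝ) else if E (m + i) then 1 else 0) ≤
        ∑ j ∈ Icc 1 H, ∑ i ∈ Ico 1 j, (if E (m + i) then (1 : ℝ) else 0) * (if E (m + j) then (1 : ℝ) else 0) := by
      refine sum_le_sum fun j hj => ?_
      have hsum0 : 0 ≤ ∑ i ∈ Ico 1 j, (if E (m + i) then (1 : ℝ) else 0) * (if E (m + j) then (1 : ℝ) else 0) :=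
        sum_nonneg fun i _ => mul_nonneg (hnn _) (hnn _)
      by_cases hji : j = i0
      · rw [if_pos hji]
        exact hsum0
      · rw [if_neg hji]
        by_cases hE : E (m + j)
        · have hlt : i0 < j := by
            rcases Nat.lt_trichotomy j i0 with h | h | h
            · exact absurd ⟨(mem_Icc.1 hj).1, (mem_Icc.1 hj).2, hE⟩ (h4 j h)
            · exact absurd h hji
            · exact h
          have h6 := single_le_sum (f := fun i => (if E (m + i) then (1 : ℝ) else 0) * (if E (m + j) then (1 : ℝ) else 0))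
            (fun i _ => mul_nonneg (hnn _) (hnn _)) (mem_Ico.2 ⟨h1, hlt⟩ : i0 ∈ Ico 1 j)
          refine le_trans ?_ h6
          show _ ≤ (if E (m + i0) then (1 : ℝ) else 0) * (if E (m + j) then (1 : ℝ) else 0)
          rw [if_pos h3, one_mul]
        · rw [if_neg hE] at hsum0 ⊢
          exact hsum0
    linarith
  · have h0 : ∀ i ∈ (Icc 1 H).filter (fun i : ℕ => (m + i) % q = r2 % q), (if E (m + i) then (1 : ℝ) else 0) = 0 := by
      intro i hi
      rw [mem_filter, mem_Icc] at hi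
      rw [if_neg]
      exact fun h => hS ⟨i, hi.1.1, hi.1.2, h⟩
    rw [sum_congr rfl h0, sum_const_zero]
    refine add_nonneg (by split_ifs <;> norm_num) ?_
    exact sum_nonneg fun j _ => sum_nonneg fun i _ => mul_nonneg (hnn _) (hnn _)

open Classical in
/-- pairs minus triples -/
lemma count {k : ℕ} (f : Fin k → ℤ[X]) (q r1 r2 X m₀ M H : ℕ) (T : ℝ) (hT : (H : ℝ) ≤ T) :
    ∑ m ∈ (Ioc m₀ (m₀ + M)).filter (fun m : ℕ => m % q = r1 % q), ∑ i ∈ (Icc 1 H).filter (fun i : ℕ => (m + i) % q = r2 % q),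
      ∏ l, (c2 (f l) X m (m + i) : ℝ) ≤
    (#((Bx k X ×ˢ Ioc m₀ (m₀ + M)).filter fun w => Ev f w.1 w.2 ∧ w.2 % q = r1 % q ∧
      ∃ n' : ℕ, w.2 < n' ∧ (n' : ℝ) ≤ w.2 + T ∧ Ev f w.1 n' ∧ n' % q = r2 % q ∧
        ∀ t : ℕ, w.2 < t → t < n' → ¬ Ev f w.1 t) : ℝ) +
    ∑ m ∈ Ioc m₀ (m₀ + M), ∑ j ∈ Icc 1 H, ∑ i ∈ Ico 1 j, ∏ l, (c3 (f l) X m (m + i) (m + j) : ℝ) := by
  simp only [card2, card3]
  have e1 : ∑ m ∈ (Ioc m₀ (m₀ + M)).filter (fun m : ℕ => m % q = r1 % q),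
      ∑ i ∈ (Icc 1 H).filter (fun i : ℕ => (m + i) % q = r2 % q), ∑ a ∈ Bx k X, ee f a m * ee f a (m + i) =
      ∑ a ∈ Bx k X, ∑ m ∈ Ioc m₀ (m₀ + M), if m % q = r1 % q then
        ee f a m * ∑ i ∈ (Icc 1 H).filter (fun i : ℕ => (m + i) % q = r2 % q), ee f a (m + i) else 0 := by
    rw [sum_comm]
    rw [sum_filter]
    refine sum_congr rfl fun m _ => ?_
    by_cases hm : m % q = r1 % q
    · simp only [if_pos hm]
      rw [sum_comm]
      refine sum_congr rfl fun a _ => ?_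
      rw [mul_sum]
    · simp only [if_neg hm, sum_const_zero]
  have e2 : ∑ m ∈ Ioc m₀ (m₀ + M), ∑ j ∈ Icc 1 H, ∑ i ∈ Ico 1 j, ∑ a ∈ Bx k X, ee f a m * (ee f a (m + i) * ee f a (m + j)) =
      ∑ a ∈ Bx k X, ∑ m ∈ Ioc m₀ (m₀ + M), ee f a m * ∑ j ∈ Icc 1 H, ∑ i ∈ Ico 1 j, ee f a (m + i) * ee f a (m + j) := by
    rw [sum_comm (s := Bx k X)]
    refine sum_congr rfl fun m _ => ?_
    have : ∀ j ∈ Icc 1 H, ∑ i ∈ Ico 1 j, ∑ a ∈ Bx k X, ee f a m * (ee f a (m + i) * ee f a (m + j)) =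
        ∑ a ∈ Bx k X, ∑ i ∈ Ico 1 j, ee f a m * (ee f a (m + i) * ee f a (m + j)) := fun j _ => sum_comm
    rw [sum_congr rfl this, sum_comm]
    refine sum_congr rfl fun a _ => ?_
    rw [mul_sum]
    refine sum_congr rfl fun j _ => ?_
    rw [mul_sum]
  have e3 : (#((Bx k X ×ˢ Ioc m₀ (m₀ + M)).filter fun w => Ev f w.1 w.2 ∧ w.2 % q = r1 % q ∧
      ∃ n' : ℕ, w.2 < n' ∧ (n' : ℝ) ≤ w.2 + T ∧ Ev f w.1 n' ∧ n' % q = r2 % q ∧
        ∀ t : ℕ, w.2 < t → t < n' → ¬ Ev f w.1 t) : ℝ) =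
      ∑ a ∈ Bx k X, ∑ m ∈ Ioc m₀ (m₀ + M), if Ev f a m ∧ m % q = r1 % q ∧
        ∃ n' : ℕ, m < n' ∧ (n' : ℝ) ≤ m + T ∧ Ev f a n' ∧ n' % q = r2 % q ∧
        ∀ t : ℕ, m < t → t < n' → ¬ Ev f a t then (1 : ℝ) else 0 := by
    rw [card_filter]
    push_cast
    rw [sum_product]
  rw [e1, e2, e3, ← sum_add_distrib]
  refine sum_le_sum fun a _ => ?_
  rw [← sum_add_distrib]
  refine sum_le_sum fun m _ => ?_
  have h0 : 0 ≤ ∑ j ∈ Icc 1 H, ∑ i ∈ Ico 1 j, ee f a (m + i) * ee f a (m + j) :=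
    sum_nonneg fun j _ => sum_nonneg fun i _ => mul_nonneg (ee_nonneg _ _ _) (ee_nonneg _ _ _)
  by_cases hm : m % q = r1 % q
  · rw [if_pos hm]
    by_cases hE : Ev f a m
    · have h1 := pt (Ev f a) q r2 m H
      have h2 : ee f a m = 1 := by
        unfold ee
        rw [if_pos hE]
      rw [h2, one_mul, one_mul]
      have h3 : (if ∃ n', m < n' ∧ n' ≤ m + H ∧ Ev f a n' ∧ n' % q = r2 % q ∧ ∀ t, m < t → t < n' → ¬ Ev f a t then (1 : ℝ) else 0) ≤
          if Ev f a m ∧ m % q = r1 % q ∧ ∃ n' : ℕ, m < n' ∧ (n' : ℝ) ≤ m + T ∧ Ev f a n' ∧ n' % q = r2 % q ∧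
            ∀ t : ℕ, m < t → t < n' → ¬ Ev f a t then (1 : ℝ) else 0 := by
        by_cases h4 : ∃ n', m < n' ∧ n' ≤ m + H ∧ Ev f a n' ∧ n' % q = r2 % q ∧ ∀ t, m < t → t < n' → ¬ Ev f a t
        · rw [if_pos h4, if_pos]
          obtain ⟨n', g1, g2, g3, g4, g5⟩ := h4
          refine ⟨hE, hm, n', g1, ?_, g3, g4, g5⟩
          have : (n' : ℝ) ≤ m + H := by exact_mod_cast g2
          linarith
        · rw [if_neg h4]
          split_ifs <;> norm_num
      exact h1.trans (add_le_add h3 le_rfl)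
    · have h2 : ee f a m = 0 := by
        unfold ee
        rw [if_neg hE]
      rw [h2, zero_mul, zero_mul, add_zero]
      split_ifs <;> norm_num
  · rw [if_neg hm]
    refine add_nonneg ?_ (mul_nonneg (ee_nonneg _ _ _) h0)
    split_ifs <;> norm_num

lemma evl (t : ℝ) : ∀ᶠ x : ℕ in atTop, t ≤ Real.log x :=
  (Real.tendsto_log_atTop.comp tendsto_natCast_atTop_atTop).eventually_ge_atTop t

/-- arithmetic of the last step -/
lemma fin_arith (c K s lam L XM H : ℝ) (hc : 0 < c) (hK : 0 < K) (hs : s ≤ c / (4 * K)) (hs0 : 0 < s) (hl0 : 0 < lam) (hl1 : lam ≤ 1)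
    (hL : 0 < L) (hXM : 0 ≤ XM) (hH1 : H ≤ s * lam * L) (hH2 : s * lam * L / 2 ≤ H) (Q2 Q3 N : ℝ)
    (h2 : c * (XM * H / L ^ 2) ≤ Q2) (h3 : Q3 ≤ K * (XM * H ^ 2 / L ^ 3)) (h : Q2 ≤ N + Q3) :
    3 * c / 8 * s * lam * (XM / L) ≤ N := by
  have hH0 : 0 ≤ H := le_trans (by positivity) hH2
  have a0 : 0 ≤ XM * H / L ^ 2 := by positivity
  have a1 : K * (XM * H ^ 2 / L ^ 3) ≤ c / 4 * (XM * H / L ^ 2) := by
    have b1 : XM * H ^ 2 / L ^ 3 = (XM * H / L ^ 2) * (H / L) := by field_simp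
    have b2 : H / L ≤ s := by
      rw [div_le_iff₀ hL]
      have : s * lam * L ≤ s * 1 * L := by gcongr
      linarith
    have b3 : K * s ≤ c / 4 := by
      have : K * s ≤ K * (c / (4 * K)) := mul_le_mul_of_nonneg_left hs hK.le
      have e : K * (c / (4 * K)) = c / 4 := by field_simp
      linarith
    rw [b1]
    calc K * ((XM * H / L ^ 2) * (H / L)) ≤ K * ((XM * H / L ^ 2) * s) := by gcongr
      _ = (K * s) * (XM * H / L ^ 2) := by ring
      _ ≤ _ := mul_le_mul_of_nonneg_right b3 a0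
  have a2 : 3 * c / 4 * (XM * H / L ^ 2) ≤ N := by
    have : 3 * c / 4 * (XM * H / L ^ 2) = c * (XM * H / L ^ 2) - c / 4 * (XM * H / L ^ 2) := by ring
    linarith
  refine le_trans ?_ a2
  have a3 : s * lam * (XM / L) / 2 ≤ XM * H / L ^ 2 := by
    have e : s * lam * (XM / L) / 2 = XM * (s * lam * L / 2) / L ^ 2 := by field_simp
    rw [e]
    gcongr
  calc 3 * c / 8 * s * lam * (XM / L) = 3 * c / 4 * (s * lam * (XM / L) / 2) := by ring
    _ ≤ _ := by gcongr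

theorem r7 {k : ℕ} (f : Fin k → ℤ[X]) (hk : 1 ≤ k) (h5 : S_R5 f) (h6 : S_R6 f) : S_RP f := by
  classical
  intro q r1 r2 hq hpar
  obtain ⟨K, hK, h5⟩ := h5
  obtain ⟨c, hc, h6⟩ := h6 q r1 r2 hq hpar
  obtain ⟨s, hs⟩ : ∃ s, s = min 1 (c / (4 * K)) := ⟨_, rfl⟩
  have hs0 : 0 < s := by rw [hs]; exact lt_min one_pos (by positivity)
  have hs1 : s ≤ 1 := by rw [hs]; exact min_le_left _ _
  have hs2 : s ≤ c / (4 * K) := by rw [hs]; exact min_le_right _ _
  clear hs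
  refine ⟨3 * c / 8 * s, by positivity, fun lam hl0 hl1 C => ?_⟩
  obtain ⟨B, Xa, h6⟩ := h6 C k
  obtain ⟨Xb, h5⟩ := h5 C k
  obtain ⟨Xc, hXc⟩ := eventually_atTop.1 (evl ((2 * q + 2) / (s * lam) + 1))
  refine ⟨B, Xa + Xb + Xc, fun X hX m₀ M hM hW => ?_⟩
  have hL := hXc X (by omega)
  have hsl : 0 < s * lam := mul_pos hs0 hl0
  have hL1 : 1 ≤ Real.log X := by
    have : 0 ≤ (2 * (q : ℝ) + 2) / (s * lam) := by positivity
    linarith
  have hLk : Real.log X ≤ Real.log X ^ k := by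
    calc Real.log X = Real.log X ^ 1 := (pow_one _).symm
      _ ≤ Real.log X ^ k := pow_le_pow_right₀ hL1 hk
  obtain ⟨Lk, hLkd⟩ : ∃ Lk : ℝ, Lk = Real.log X ^ k := ⟨_, rfl⟩
  rw [← hLkd] at hLk
  have hLk0 : 0 < Lk := by linarith
  have hbig : 2 * (q : ℝ) + 2 ≤ s * lam * Lk := by
    have : (2 * (q : ℝ) + 2) / (s * lam) ≤ Lk := by linarith
    rw [div_le_iff₀ hsl] at this
    linarith
  obtain ⟨H, hH⟩ : ∃ H : ℕ, H = ⌊s * lam * Lk⌋₊ := ⟨_, rfl⟩
  have hH1 : (H : ℝ) ≤ s * lam * Lk := by rw [hH]; exact Nat.floor_le (by positivity)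
  have hH2 : s * lam * Lk < H + 1 := by rw [hH]; exact Nat.lt_floor_add_one _
  have hH3 : 2 * q ≤ H := by
    have : (2 * (q : ℝ)) < H := by linarith
    have h : (2 * q : ℕ) < H := by exact_mod_cast this
    exact h.le
  have hH4 : s * lam * Lk / 2 ≤ H := by
    have : (0 : ℝ) ≤ q := Nat.cast_nonneg q
    linarith
  have hsl1 : s * lam ≤ 1 := mul_le_one₀ hs1 hl0.le hl1
  have hH5 : (H : ℝ) ≤ Lk := hH1.trans (by
    calc s * lam * Lk ≤ 1 * Lk := mul_le_mul_of_nonneg_right hsl1 hLk0.le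
      _ = Lk := one_mul _)
  have hH6 : (H : ℝ) ≤ lam * Lk := hH1.trans (by
    calc s * lam * Lk ≤ 1 * lam * Lk := by gcongr
      _ = lam * Lk := by ring)
  have hM' : ∀ l, (X : ℝ) ^ (1 / 3 : ℝ) ≤ (M : ℝ) ^ ((f l).natDegree - 1) := fun l =>
    le_trans (le_mul_of_one_le_right (by positivity) (one_le_pow₀ hL1)) (hM l)
  have g6 := h6 X (by omega) m₀ M H hH3 (by rw [← hLkd]; exact hH5) hM hW
  have g5 := h5 X (by omega) m₀ M H (by omega) (by rw [← hLkd]; exact hH5) hM' hW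
  have g7 := count f q r1 r2 X m₀ M H (lam * Lk) hH6
  rw [← hLkd] at g6 g5 ⊢
  exact fin_arith c K s lam Lk ((X : ℝ) ^ k * M) H hc hK hs2 hs0 hl0 hl1 hLk0 (by positivity) hH1 hH4 _ _ _ g6 g5 g7

end Run7.h285.R
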