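import Pool.Agent.Run7.h285.R.R7
import Pool.Agent.Run7.h973.G.SM1

/-!
# Project RP: the number of the events is at most `(120 X / L)^k M`
-/

set_option autoImplicit false

namespace Run7.h285.R

open Finset Filter Topology Polynomial
open Run7.h285.S (Bx uu)
open Run7.h285.G (cor)

lemma c2_diag (g : ℤ[X]) (X n : ℕ) (hX : 2 ≤ X) : (c2 g X n n : ℝ) ≤ 120 * (X / Real.log X) := by
  refine le_trans (le_of_eq ?_) (Run7.h973.G.uu_diag g X n hX)
  unfold c2 cor
  rw [card_filter]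
  push_cast
  refine sum_congr rfl fun c _ => ?_
  unfold uu
  by_cases h : (g.eval (n : ℤ) + c).natAbs.Prime
  · rw [if_pos ⟨h, h⟩, if_pos h, mul_one]
  · rw [if_neg (fun h1 => h h1.1), if_neg h, mul_zero]

open Classical in
theorem ev_up {k : ℕ} (f : Fin k → ℤ[X]) (X m₀ M : ℕ) (hX : 2 ≤ X) :
    (#((Bx k X ×ˢ Ioc m₀ (m₀ + M)).filter fun w => Ev f w.1 w.2) : ℝ) ≤ 120 ^ k * ((X : ℝ) ^ k * M / Real.log X ^ k) := by
  have hX2 : (2 : ℝ) ≤ X := by exact_mod_cast hX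
  have hL : 0 < Real.log X := Real.log_pos (by linarith)
  have e1 : (#((Bx k X ×ˢ Ioc m₀ (m₀ + M)).filter fun w => Ev f w.1 w.2) : ℝ) =
      ∑ m ∈ Ioc m₀ (m₀ + M), ∏ l, (c2 (f l) X m m : ℝ) := by
    simp only [card2]
    rw [card_filter]
    push_cast
    rw [sum_product, sum_comm]
    refine sum_congr rfl fun m _ => sum_congr rfl fun a _ => ?_
    unfold ee
    show (if Ev f a m then (1 : ℝ) else 0) = _
    by_cases h : Ev f a m
    · rw [if_pos h, mul_one]
    · rw [if_neg h, mul_zero]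
  rw [e1]
  have h1 : ∀ m ∈ Ioc m₀ (m₀ + M), ∏ l, (c2 (f l) X m m : ℝ) ≤ (120 * (X / Real.log X)) ^ k := by
    intro m _
    calc ∏ l, (c2 (f l) X m m : ℝ) ≤ ∏ _l : Fin k, (120 * (X / Real.log X)) :=
          prod_le_prod (fun l _ => Nat.cast_nonneg _) fun l _ => c2_diag _ _ _ hX
      _ = _ := by rw [prod_const, card_univ, Fintype.card_fin]
  refine (sum_le_sum h1).trans ?_
  rw [sum_const, Nat.card_Ioc, nsmul_eq_mul, mul_pow, div_pow]
  have h2 : ((m₀ + M - m₀ : ℕ) : ℝ) = M := by rw [Nat.add_sub_cancel_left]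
  rw [h2]
  apply le_of_eq
  ring

end Run7.h285.R
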